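import Pool.Agent.Lib.MP_0a5adf_nt.EXP.Base
import Pool.Agent.Lib.Subspace.Main

/-!
# Module RIDOUT
-/

set_option autoImplicit false

namespace Pool.Agent.Lib.MP_0a5adf_nt.EXP.H89

open Finset

theorem ridout : RidoutStatement := by
  intro c ε hε
  obtain ⟨F, hF0, hF⟩ := Subspace.subspace_stmt 2 le_rfl !![1, 0; -1, 1] 1 1
    (by simp [Matrix.det_fin_two]) (by simp) (by simp) (ε / 26) (by positivity)
  obtain ⟨B, hB⟩ : ∃ B : ℕ, ∀ h ∈ F, |h 0| ≤ B := by
    refine ⟨∑ h ∈ F, (h 0).natAbs, fun h hh => ?_⟩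
    have := Finset.single_le_sum (f := fun h : Fin 2 → ℤ => (h 0).natAbs) (fun _ _ => Nat.zero_le _) hh
    have h2 : (|h 0| : ℤ) = ((h 0).natAbs : ℤ) := Int.abs_eq_natAbs _
    rw [h2]
    exact_mod_cast this
  obtain ⟨m1, hm1⟩ := exists_nat_gt (((c : ℝ) + 4) / ε)
  refine ⟨max (max m1 1) B, ?_⟩
  intro m hm i hi J hJ hJ2 u v hu hv hdvd
  have hmm1 : m1 ≤ m := le_trans (le_trans (le_max_left _ _) (le_max_left _ _)) hm
  have hm1' : 1 ≤ m := le_trans (le_trans (le_max_right _ _) (le_max_left _ _)) hm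
  have hmB : B ≤ m := le_trans (le_max_right _ _) hm
  have hεm : (c : ℝ) + 4 ≤ ε * m := by
    have h1 : ((c : ℝ) + 4) / ε < m := lt_of_lt_of_le hm1 (by exact_mod_cast hmm1)
    rw [div_lt_iff₀ hε] at h1
    linarith
  have hc0 : (0 : ℝ) ≤ c := Nat.cast_nonneg c
  have hmr : (1 : ℝ) ≤ m := by exact_mod_cast hm1'
  by_contra hcon
  push Not at hcon
  have hvle : (1 : ℝ) ≤ |(v : ℝ)| := by
    have : (1 : ℤ) ≤ |v| := Int.one_le_abs hv
    exact_mod_cast this
  -- the basic comparison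
  have h2m : (2 : ℝ) ^ ((1 - ε) * m) ≤ 2 ^ m := by
    rw [← Real.rpow_natCast]
    apply Real.rpow_le_rpow_of_exponent_le (by norm_num)
    nlinarith
  have h2mc : (2 : ℝ) ^ ((1 - ε) * m) * 2 ^ c ≤ 2 ^ m := by
    rw [← Real.rpow_natCast, ← Real.rpow_natCast, ← Real.rpow_add (by norm_num)]
    apply Real.rpow_le_rpow_of_exponent_le (by norm_num)
    nlinarith
  have hQ2 : 2 * m ≤ (4 - i) * m := Nat.mul_le_mul_right m (by omega)
  have hQP : (3 - i) * m + m = (4 - i) * m := by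
    have : 4 - i = (3 - i) + 1 := by omega
    rw [this]; ring
  have h3J : (2 : ℝ) ^ m ≤ 2 ^ c * 3 ^ J := by
    have h1 : (2 : ℝ) ^ ((i + 1) * m) ≤ 2 ^ c * 3 ^ J := by exact_mod_cast hJ2
    refine le_trans ?_ h1
    apply pow_le_pow_right₀ (by norm_num)
    nlinarith
  obtain ⟨t, ht⟩ := hdvd
  rcases eq_or_ne u 0 with hu0 | hu0
  · -- u = 0
    subst hu0
    simp only [mul_zero, zero_add] at ht
    have ht0 : t ≠ 0 := by rintro rfl; simp at ht; exact hv ht
    have h1 : (2 : ℝ) ^ ((4 - i) * m) ≤ |(v : ℝ)| := by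
      rw [ht]
      push_cast
      rw [abs_mul]
      have h3 : (1 : ℝ) ≤ |(t : ℝ)| := by exact_mod_cast Int.one_le_abs ht0
      have h4 : |(2 : ℝ) ^ ((4 - i) * m)| = 2 ^ ((4 - i) * m) := abs_of_pos (by positivity)
      rw [h4]
      exact le_mul_of_one_le_right (by positivity) h3
    have h2 : (2 : ℝ) ^ m ≤ 2 ^ ((4 - i) * m) := pow_le_pow_right₀ (by norm_num) (by omega)
    linarith
  have hu1 : (1 : ℝ) ≤ |(u : ℝ)| := by exact_mod_cast Int.one_le_abs hu0
  rcases le_or_gt (3 ^ J * |(u : ℝ)|) |(v : ℝ)| with hbig | hsmall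
  · have h1 : (3 : ℝ) ^ J ≤ |(v : ℝ)| := le_trans (le_mul_of_one_le_right (by positivity) hu1) hbig
    have h2 : (2 : ℝ) ^ c * 3 ^ J ≤ 2 ^ c * |(v : ℝ)| := mul_le_mul_of_nonneg_left h1 (by positivity)
    have h3 : (2 : ℝ) ^ c * |(v : ℝ)| < 2 ^ c * 2 ^ ((1 - ε) * m) :=
      mul_lt_mul_of_pos_left hcon (by positivity)
    nlinarith [h2mc]
  have ht0 : t ≠ 0 := by
    rintro rfl
    have h1 : (v : ℝ) = -(3 ^ J * u) := by
      have : v = -(3 ^ J * u) := by linarith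
      rw [this]; push_cast; ring
    rw [h1, abs_neg, abs_mul, abs_of_pos (show (0 : ℝ) < 3 ^ J by positivity)] at hsmall
    exact lt_irrefl _ hsmall
  have ht1 : (1 : ℝ) ≤ |(t : ℝ)| := by exact_mod_cast Int.one_le_abs ht0
  have huR : |(u : ℝ)| ≤ 2 ^ ((3 - i) * m + 2) := by exact_mod_cast hu
  have htR : (2 : ℝ) ^ ((4 - i) * m) * t = 3 ^ J * u + v := by exact_mod_cast ht.symm
  -- size of the coordinates
  have hX0 : |(3 : ℝ) ^ J * u| ≤ 2 ^ (9 * m + 2) := by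
    rw [abs_mul, abs_of_pos (show (0 : ℝ) < 3 ^ J by positivity)]
    have h1 : (3 : ℝ) ^ J ≤ 2 ^ (6 * m) := by
      have h2 : (3 : ℝ) ^ J ≤ 4 ^ J := pow_le_pow_left₀ (by norm_num) (by norm_num) J
      have h3 : (4 : ℝ) ^ J = 2 ^ (2 * J) := by rw [pow_mul]; norm_num
      rw [h3] at h2
      refine le_trans h2 (pow_le_pow_right₀ (by norm_num) ?_)
      have h4 : (i + 1) * m ≤ 3 * m := Nat.mul_le_mul_right m (by omega)
      omega
    have h5 : (2 : ℝ) ^ ((3 - i) * m + 2) ≤ 2 ^ (3 * m + 2) := by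
      apply pow_le_pow_right₀ (by norm_num)
      have h4 : (3 - i) * m ≤ 3 * m := Nat.mul_le_mul_right m (by omega)
      omega
    calc (3 : ℝ) ^ J * |(u : ℝ)| ≤ 2 ^ (6 * m) * 2 ^ (3 * m + 2) :=
          mul_le_mul h1 (le_trans huR h5) (abs_nonneg _) (by positivity)
      _ = 2 ^ (9 * m + 2) := by rw [← pow_add]; congr 1; ring
  have hX1 : |(2 : ℝ) ^ ((4 - i) * m) * t| ≤ 2 ^ (9 * m + 3) := by
    rw [htR]
    have h1 : |(v : ℝ)| ≤ 2 ^ (9 * m + 2) := by
      refine le_trans hsmall.le ?_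
      rw [abs_mul, abs_of_pos (show (0 : ℝ) < 3 ^ J by positivity)] at hX0
      exact hX0
    calc |(3 : ℝ) ^ J * u + v| ≤ |(3 : ℝ) ^ J * u| + |(v : ℝ)| := abs_add_le _ _
      _ ≤ 2 ^ (9 * m + 2) + 2 ^ (9 * m + 2) := add_le_add hX0 h1
      _ = 2 ^ (9 * m + 3) := by ring
  have h13 : ∀ a : ℕ, a ≤ 3 → (2 : ℝ) ^ (9 * m + a) ≤ 2 ^ (13 * m) := by
    intro a ha
    exact pow_le_pow_right₀ (by norm_num) (by omega)
  obtain ⟨h, hh, hsum⟩ := hF ![3 ^ J * u, 2 ^ ((4 - i) * m) * t] ![0, (4 - i) * m] ![J, 0]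
    (by
      intro h0
      have := congrFun h0 0
      simp at this
      exact hu0 this)
    (by
      intro k
      fin_cases k <;> simp)
    (by
      intro k
      fin_cases k <;> simp)
    (2 ^ (13 * m))
    (by
      intro k
      fin_cases k
      · simpa using le_trans hX0 (h13 2 (by norm_num))
      · simpa using le_trans hX1 (h13 3 (by norm_num)))
    (by
      have e0 : ((!![1, 0; -1, 1] : Matrix (Fin 2) (Fin 2) ℤ).mulVec
          ![3 ^ J * u, 2 ^ ((4 - i) * m) * t]) 0 = 3 ^ J * u := by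
        simp [Matrix.mulVec, dotProduct, Fin.sum_univ_two]
      have e1 : ((!![1, 0; -1, 1] : Matrix (Fin 2) (Fin 2) ℤ).mulVec
          ![3 ^ J * u, 2 ^ ((4 - i) * m) * t]) 1 = v := by
        simp [Matrix.mulVec, dotProduct, Fin.sum_univ_two]
        linarith
      rw [Fin.prod_univ_two, Fin.sum_univ_two, Fin.sum_univ_two, e0, e1]
      simp only [Matrix.cons_val_zero, Matrix.cons_val_one, zero_add, add_zero]
      push_cast
      rw [abs_mul, abs_of_pos (show (0 : ℝ) < 3 ^ J by positivity)]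
      have hp : ((2 : ℝ) ^ (13 * m)) ^ (ε / 26) = 2 ^ (ε * m / 2) := by
        rw [← Real.rpow_natCast, ← Real.rpow_mul (by norm_num)]
        congr 1
        push_cast
        ring
      rw [hp]
      have hmain : |(u : ℝ)| * |(v : ℝ)| * 2 ^ (ε * m / 2) ≤ 2 ^ ((4 - i) * m) := by
        calc |(u : ℝ)| * |(v : ℝ)| * 2 ^ (ε * m / 2)
            ≤ 2 ^ ((3 - i) * m + 2) * 2 ^ ((1 - ε) * m) * 2 ^ (ε * m / 2) := by
              gcongr
          _ = 2 ^ ((((3 - i) * m + 2 : ℕ) : ℝ) + (1 - ε) * m + ε * m / 2) := by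
              rw [Real.rpow_add (by norm_num), Real.rpow_add (by norm_num), Real.rpow_natCast]
          _ ≤ 2 ^ ((((4 - i) * m : ℕ) : ℝ)) := by
              apply Real.rpow_le_rpow_of_exponent_le (by norm_num)
              rw [← hQP]
              push_cast
              nlinarith
          _ = 2 ^ ((4 - i) * m) := by rw [Real.rpow_natCast]
      calc 3 ^ J * |(u : ℝ)| * |(v : ℝ)| * 2 ^ (ε * m / 2)
          = 3 ^ J * (|(u : ℝ)| * |(v : ℝ)| * 2 ^ (ε * m / 2)) := by ring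
        _ ≤ 3 ^ J * 2 ^ ((4 - i) * m) := mul_le_mul_of_nonneg_left hmain (by positivity)
        _ = 2 ^ ((4 - i) * m) * 3 ^ J := by ring)
  rw [Fin.sum_univ_two] at hsum
  simp only [Matrix.cons_val_zero, Matrix.cons_val_one] at hsum
  have hh0 : h 0 ≠ 0 := by
    intro h0
    rw [h0, zero_mul, zero_add] at hsum
    have h1 : h 1 = 0 := by
      rcases mul_eq_zero.1 hsum with h2 | h2
      · exact h2
      · exfalso
        rcases mul_eq_zero.1 h2 with h3 | h3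
        · exact absurd h3 (by positivity)
        · exact ht0 h3
    exact hF0 h hh (by funext k; fin_cases k <;> simp [h0, h1])
  have hkey : h 0 * v = (h 0 + h 1) * t * 2 ^ ((4 - i) * m) := by
    have hv' : v = 2 ^ ((4 - i) * m) * t - 3 ^ J * u := by linarith
    rw [hv']
    linear_combination (-1 : ℤ) * hsum
  have hne : (h 0 + h 1) * t ≠ 0 := by
    intro h0
    rw [h0, zero_mul] at hkey
    rcases mul_eq_zero.1 hkey with h1 | h1
    · exact hh0 h1
    · exact hv h1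
  have hge : (2 : ℤ) ^ ((4 - i) * m) ≤ |h 0| * |v| := by
    rw [← abs_mul, hkey, abs_mul, abs_of_pos (show (0 : ℤ) < 2 ^ ((4 - i) * m) by positivity)]
    exact le_mul_of_one_le_left (by positivity) (Int.one_le_abs hne)
  have hB' : |h 0| ≤ (B : ℤ) := hB h hh
  have hgeR : (2 : ℝ) ^ ((4 - i) * m) ≤ B * |(v : ℝ)| := by
    have h1 : (2 : ℤ) ^ ((4 - i) * m) ≤ B * |v| :=
      le_trans hge (mul_le_mul_of_nonneg_right hB' (abs_nonneg _))
    exact_mod_cast h1
  have hB2 : (B : ℝ) < 2 ^ m := by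
    have h1 : B < 2 ^ m := lt_of_le_of_lt hmB Nat.lt_two_pow_self
    exact_mod_cast h1
  have h22 : (2 : ℝ) ^ m * 2 ^ m ≤ 2 ^ ((4 - i) * m) := by
    rw [← pow_add]
    exact pow_le_pow_right₀ (by norm_num) (by omega)
  have hv2 : |(v : ℝ)| < 2 ^ m := lt_of_lt_of_le hcon h2m
  have hBv : (B : ℝ) * |(v : ℝ)| < 2 ^ m * 2 ^ m := by
    apply mul_lt_mul'' hB2 hv2 (Nat.cast_nonneg B) (abs_nonneg _)
  linarith

end Pool.Agent.Lib.MP_0a5adf_nt.EXP.H89
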