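import Pool.Agent.Lib.MP_0a5adf_nt.EXP.H12.Rise
import Pool.Agent.Lib.MP_0a5adf_nt.EXP.H12.Sol
import Pool.Agent.Lib.MP_0a5adf_nt.EXP.H12.Stop
import Pool.Agent.Lib.MP_0a5adf_nt.EXP.H29.Tree
import Pool.Agent.Lib.MP_0a5adf_nt.EXP.H29.Words
import Pool.Agent.Lib.MP_0a5adf_nt.EXP.H35.Per
import Pool.Agent.Lib.MP_0a5adf_nt.EXP.H59.Main
import Pool.Agent.Lib.MP_0a5adf_nt.EXP.H72.Class
import Pool.Agent.Lib.MP_0a5adf_nt.EXP.H72.Energy
import Pool.Agent.Lib.MP_0a5adf_nt.EXP.H73.Cs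
import Pool.Agent.Lib.MP_0a5adf_nt.EXP.H78.Decomp
import Pool.Agent.Lib.MP_0a5adf_nt.EXP.H89.Ridout

/-!
# The theorem of `Paper.md` without hypotheses
-/

set_option autoImplicit false

namespace Pool.Agent.Lib.MP_0a5adf_nt.EXP.H89

theorem main_thm : MainStatement :=
  H59.main (H72.class' H73.cs (H72.energy ridout H12.sol) (H29.tree H29.words) H29.words)
    H12.rise (H29.height H29.words) (H78.decomp H29.words H12.sol) H29.words

theorem stop_thm : StopStatement := H12.stop main_thm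

theorem per_thm : PerStatement := H35.per main_thm

end Pool.Agent.Lib.MP_0a5adf_nt.EXP.H89
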